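import Mathlib

set_option autoImplicit false

open Filter Topology Set WeakDual UniformConvergence

namespace Pool.Agent.W_MP_591444_an

/-- A (commutative, unital, non-zero, complex) Frechet algebra: complete, Hausdorff, and with
topology given by an increasing sequence of submultiplicative seminorms. -/
structure IsFrechetAlgebra (A : Type*) [CommRing A] [Algebra ℂ A] [UniformSpace A] : Prop where
  nontrivial : Nontrivial A
  isUniformAddGroup : IsUniformAddGroup A
  t2 : T2Space A
  complete : CompleteSpace A
  exists_seminorms : ∃ p : SeminormFamily ℂ A ℕ,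
    Monotone p ∧ (∀ m x y, p m (x * y) ≤ p m x * p m y) ∧ WithSeminorms p

/-- A reduced complex space structure on the topological space `Y`, given by its structure sheaf,
a sheaf of functions. `HolAt f y` says that the function `f` is holomorphic in a neighbourhood of
`y`. Each point has an open neighbourhood `U` with a chart `χ`, a homeomorphism of `U` onto the set
`V` of common zeros of finitely many holomorphic functions on an open set `Ω` in `ℂ ^ n`, for which
the functions holomorphic at `u ∈ U` are those which near `u` are `F ∘ χ`, with `F` holomorphic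
at `χ u`. -/
structure ComplexSpaceStructure (Y : Type*) [TopologicalSpace Y] where
  /-- the function is holomorphic in a neighbourhood of the point -/
  HolAt : (Y → ℂ) → Y → Prop
  exists_chart : ∀ y : Y, ∃ (U : Set Y) (n m : ℕ) (Ω : Set (Fin n → ℂ))
    (g : Fin m → (Fin n → ℂ) → ℂ) (χ : Y → (Fin n → ℂ)),
    IsOpen U ∧ y ∈ U ∧ IsOpen Ω ∧ (∀ i, AnalyticOnNhd ℂ (g i) Ω) ∧
    IsEmbedding (U.domRestrict χ) ∧ χ '' U = {z ∈ Ω | ∀ i, g i z = 0} ∧
    ∀ (f : Y → ℂ), ∀ u ∈ U, HolAt f u ↔
      ∃ F : (Fin n → ℂ) → ℂ, AnalyticAt ℂ F (χ u) ∧ ∀ᶠ v in 𝓝 u, f v = F (χ v)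

/-- The set `Hol(Y)` of continuous functions holomorphic on all of `Y`. -/
def ComplexSpaceStructure.hol {Y : Type*} [TopologicalSpace Y] (S : ComplexSpaceStructure Y) :
    Set C(Y, ℂ) :=
  {f | ∀ y, S.HolAt f y}

/-- A reduced complex space is Stein if it is Hausdorff, has a countable topology, is
holomorphically separable and holomorphically convex. -/
structure ComplexSpaceStructure.IsStein {Y : Type*} [TopologicalSpace Y]
    (S : ComplexSpaceStructure Y) : Prop where
  t2 : T2Space Y
  secondCountable : SecondCountableTopology Y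
  separable : ∀ x y : Y, x ≠ y → ∃ f ∈ S.hol, f x ≠ f y
  convex : ∀ K : Set Y, IsCompact K →
    IsCompact {y : Y | ∀ f ∈ S.hol, ∃ x ∈ K, ‖f y‖ ≤ ‖f x‖}

/-- The spectrum `M(A)` of `A`: the non-zero continuous complex homomorphisms. -/
def Spec (A : Type*) [CommRing A] [Algebra ℂ A] [TopologicalSpace A] : Type _ :=
  characterSpace ℂ A

/-- The Gelfand topology on the spectrum (the topology of pointwise convergence on `A`). -/
noncomputable instance (A : Type*) [CommRing A] [Algebra ℂ A] [TopologicalSpace A] :
    TopologicalSpace (Spec A) :=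
  instTopologicalSpaceSubtype

/-- The Gelfand transform of `x`, evaluated at the character `φ`: this is `φ x`. -/
noncomputable def gelfand {A : Type*} [CommRing A] [Algebra ℂ A] [TopologicalSpace A] (x : A) (φ : Spec A) :
    ℂ :=
  φ.1 x

/-- A Stein algebra: algebraically and topologically isomorphic to `Hol(X)`, with the
compact-open topology, for a reduced Stein space `X`. -/
def IsSteinAlgebra (A : Type*) [CommRing A] [Algebra ℂ A] [TopologicalSpace A] : Prop :=
  ∃ (X : Type) (_ : TopologicalSpace X) (S : ComplexSpaceStructure X), S.IsStein ∧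
    ∃ e : A →ₐ[ℂ] C(X, ℂ), IsEmbedding e ∧ range e = S.hol

/-- A locally Stein algebra: some non-empty open subset `Y` of the spectrum, with the Gelfand
topology, carries a structure of reduced Stein space for which all Gelfand transforms are
holomorphic on `Y`, and the closure, in the compact-open topology, of the algebra of their
restrictions to `Y` is `Hol(Y)`. -/
def IsLocallyStein (A : Type*) [CommRing A] [Algebra ℂ A] [TopologicalSpace A] : Prop :=
  ∃ Y : Set (Spec A), IsOpen Y ∧ Y.Nonempty ∧
    ∃ S : ComplexSpaceStructure Y, S.IsStein ∧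
      (∀ x : A, ∀ y : Y, S.HolAt (fun y => gelfand x y) y) ∧
      closure {f : C(Y, ℂ) | ∃ x : A, ∀ y : Y, f y = gelfand x y} = S.hol

end Pool.Agent.W_MP_591444_an
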