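import Mathlib
import Pool.Agent.W_MP_591444_an.Defs

set_option autoImplicit false

open Filter Topology Set WeakDual UniformConvergence

namespace Pool.Agent.W_MP_591444_an

/-- The entire functions, as a subalgebra of `C(ℂ, ℂ)` with the compact-open topology. -/
def holC : Subalgebra ℂ C(ℂ, ℂ) where
  carrier := {f | Differentiable ℂ f}
  mul_mem' hf hg := hf.mul hg
  add_mem' hf hg := hf.add hg
  algebraMap_mem' c := differentiable_const c

/-- The algebra `Hol(ℂ)` of entire functions, with pointwise operations and the compact-open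
topology (and its additive uniformity), all inherited from `C(ℂ, ℂ)`. -/
def Entire : Type := holC

noncomputable instance : CommRing Entire := inferInstanceAs (CommRing holC)
noncomputable instance : Algebra ℂ Entire := inferInstanceAs (Algebra ℂ holC)
noncomputable instance : UniformSpace Entire := inferInstanceAs (UniformSpace holC)

/-! ### Interpolation -/

/-- a sequence with dense range in `ℂ` -/
noncomputable def ptA : ℕ → ℂ := TopologicalSpace.denseSeq ℂ

/-- a real sequence going to infinity fast, compared to `a` -/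
noncomputable def ptB (n : ℕ) : ℝ := (n + 1) + ∑ m ∈ Finset.range (n + 1), ‖ptA m‖

theorem ptB_succ (n : ℕ) : ptB (n + 1) = ptB n + 1 + ‖ptA (n + 1)‖ := by
  simp only [ptB, Finset.sum_range_succ]
  push_cast
  ring

theorem ptB_succ_ge (n : ℕ) : ptB n + 1 ≤ ptB (n + 1) := by
  rw [ptB_succ]; linarith [norm_nonneg (ptA (n + 1))]

theorem ptB_ge (n : ℕ) : (n : ℝ) + 1 ≤ ptB n := by
  have : 0 ≤ ∑ m ∈ Finset.range (n + 1), ‖ptA m‖ := Finset.sum_nonneg fun _ _ => norm_nonneg _
  simp only [ptB]; linarith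

theorem ptB_pos (n : ℕ) : 0 < ptB n := by
  have := ptB_ge n
  have : (0 : ℝ) ≤ n := Nat.cast_nonneg n
  linarith

theorem ptB_strictMono : StrictMono ptB := by
  refine strictMono_nat_of_lt_succ fun n => ?_
  have := ptB_succ_ge n
  linarith

theorem norm_ptA_lt {m n : ℕ} (h : m ≤ n) : ‖ptA m‖ < ptB n := by
  have h1 : ‖ptA m‖ ≤ ∑ m ∈ Finset.range (n + 1), ‖ptA m‖ :=
    Finset.single_le_sum (f := fun m => ‖ptA m‖) (fun _ _ => norm_nonneg _)
      (Finset.mem_range.2 (Nat.lt_succ_of_le h))
  have : (0 : ℝ) ≤ n := Nat.cast_nonneg n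
  simp only [ptB]; linarith

theorem exists_correction (s : ℂ) (n : ℕ) {ε : ℝ} (hε : 0 < ε) :
    ∃ T : ℂ → ℂ, Differentiable ℂ T ∧ (∀ m ≤ n, T (ptA m) = 0) ∧ (∀ m < n, T (ptB m) = 0) ∧
      T (ptB n) = s ∧ ∀ z, ‖z‖ ≤ ptB n - 1 → ‖T z‖ ≤ ε := by
  set Q : ℂ → ℂ := fun z => (∏ m ∈ Finset.range (n + 1), (z - ptA m)) *
    ∏ m ∈ Finset.range n, (z - (ptB m : ℂ)) with hQ
  have hQd : Differentiable ℂ Q := by
    rw [hQ]; fun_prop
  have hQb : Q (ptB n) ≠ 0 := by
    rw [hQ]
    refine mul_ne_zero ?_ ?_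
    · refine Finset.prod_ne_zero_iff.2 fun m hm => ?_
      have h1 := norm_ptA_lt (Nat.le_of_lt_succ (Finset.mem_range.1 hm))
      intro h0
      rw [sub_eq_zero] at h0
      rw [← h0, Complex.norm_real, Real.norm_of_nonneg (ptB_pos n).le] at h1
      exact lt_irrefl _ h1
    · refine Finset.prod_ne_zero_iff.2 fun m hm => ?_
      have h1 := ptB_strictMono (Finset.mem_range.1 hm)
      intro h0
      rw [sub_eq_zero] at h0
      have h2 : ptB n = ptB m := by exact_mod_cast h0
      exact h1.ne h2.symm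
  have hbn : (ptB n : ℂ) ≠ 0 := by exact_mod_cast (ptB_pos n).ne'
  obtain ⟨C, hC⟩ : ∃ C : ℝ, ∀ z ∈ Metric.closedBall (0 : ℂ) (ptB n - 1), ‖s / Q (ptB n) * Q z‖ ≤ C :=
    (ProperSpace.isCompact_closedBall _ _).exists_bound_of_continuousOn
      (hQd.continuous.const_mul _ |>.continuousOn) 
  have hr0 : 0 ≤ ptB n - 1 := by
    have := ptB_ge n
    have : (0 : ℝ) ≤ n := Nat.cast_nonneg n
    linarith
  have hr : (ptB n - 1) / ptB n < 1 := by
    rw [div_lt_one (ptB_pos n)]; linarith
  have hr' : 0 ≤ (ptB n - 1) / ptB n := div_nonneg hr0 (ptB_pos n).le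
  have hlim : Tendsto (fun M : ℕ => C * ((ptB n - 1) / ptB n) ^ M) atTop (𝓝 (C * 0)) :=
    (tendsto_pow_atTop_nhds_zero_of_lt_one hr' hr).const_mul C
  rw [mul_zero] at hlim
  obtain ⟨M, hM⟩ := (hlim.eventually (gt_mem_nhds hε)).exists
  refine ⟨fun z => s / Q (ptB n) * Q z * (z / ptB n) ^ M, by fun_prop, ?_, ?_, ?_, ?_⟩
  · intro m hm
    have : Q (ptA m) = 0 := by
      simp only [hQ]
      rw [Finset.prod_eq_zero (Finset.mem_range.2 (Nat.lt_succ_of_le hm)) (sub_self _), zero_mul]
    simp [this]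
  · intro m hm
    have : Q (ptB m) = 0 := by
      simp only [hQ]
      rw [Finset.prod_eq_zero (s := Finset.range n) (Finset.mem_range.2 hm) (sub_self _), mul_zero]
    simp [this]
  · simp only
    rw [div_self hbn, one_pow, mul_one, div_mul_cancel₀ _ hQb]
  · intro z hz
    rw [norm_mul, norm_pow, norm_div, Complex.norm_real, Real.norm_of_nonneg (ptB_pos n).le]
    have hC0 : 0 ≤ C := (norm_nonneg _).trans (hC 0 (Metric.mem_closedBall_self hr0))
    calc ‖s / Q (ptB n) * Q z‖ * (‖z‖ / ptB n) ^ M ≤ C * ((ptB n - 1) / ptB n) ^ M := by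
          have h0 : 0 ≤ ‖z‖ / ptB n := div_nonneg (norm_nonneg _) (ptB_pos n).le
          refine mul_le_mul (hC z (by simpa using hz)) ?_ (pow_nonneg h0 _) hC0
          exact pow_le_pow_left₀ h0 (div_le_div_of_nonneg_right hz (ptB_pos n).le) _
      _ ≤ ε := hM.le

/-- An entire function satisfying the first `N` constraints can be approximated, uniformly on the
disc of radius `ptB N - 1`, by entire functions satisfying all the constraints. -/
theorem exists_approx (f : ℂ → ℂ) (hf : Differentiable ℂ f) (N : ℕ)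
    (h : ∀ n < N, f (ptA n) = f (ptB n)) {ε : ℝ} (hε : 0 < ε) :
    ∃ g : ℂ → ℂ, Differentiable ℂ g ∧ (∀ n, g (ptA n) = g (ptB n)) ∧
      ∀ z, ‖z‖ ≤ ptB N - 1 → ‖g z - f z‖ ≤ ε := by
  have hεk : ∀ k : ℕ, 0 < ε / 2 / 2 ^ k := fun k => by positivity
  choose T hTd hTa hTb hTn hTε using fun (S : ℂ → ℂ) (k : ℕ) =>
    exists_correction (S (ptA (N + k)) - S (ptB (N + k))) (N + k) (hεk k)
  obtain ⟨S, hS0, hSs⟩ : ∃ S : ℕ → ℂ → ℂ, S 0 = f ∧
      ∀ k, S (k + 1) = fun z => S k z + T (S k) k z :=
    ⟨fun k => Nat.rec f (fun k S z => S z + T S k z) k, rfl, fun k => rfl⟩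
  have hSd : ∀ k, Differentiable ℂ (S k) := by
    intro k
    induction k with
    | zero => rw [hS0]; exact hf
    | succ k ih => rw [hSs]; exact ih.add (hTd _ _)
  have hSsum : ∀ k z, S k z = f z + ∑ j ∈ Finset.range k, T (S j) j z := by
    intro k z
    induction k with
    | zero => simp [hS0]
    | succ k ih => rw [hSs, Finset.sum_range_succ, ← add_assoc, ← ih]
  -- values at the special points are eventually constant
  have hTa' : ∀ n k, n ≤ N + k → T (S k) k (ptA n) = 0 := fun n k hn => hTa (S k) k n hn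
  have hTb' : ∀ n k, n < N + k → T (S k) k (ptB n) = 0 := fun n k hn => hTb (S k) k n hn
  have hinv : ∀ k, ∀ n < N + k, S k (ptA n) = S k (ptB n) := by
    intro k
    induction k with
    | zero => simpa [hS0] using h
    | succ k ih =>
      intro n hn
      rw [hSs]
      simp only
      rcases Nat.lt_or_ge n (N + k) with h1 | h1
      · rw [hTa' n k h1.le, hTb' n k h1, ih n h1]
      · have h2 : n = N + k := by omega
        subst h2
        rw [hTa' _ k le_rfl, hTn (S k) k]
        ring
  have hbound : ∀ k z, ‖z‖ ≤ ptB (N + k) - 1 → ‖T (S k) k z‖ ≤ ε / 2 / 2 ^ k :=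
    fun k z hz => hTε (S k) k z hz
  have hsumm : Summable fun k : ℕ => ε / 2 / 2 ^ k := summable_geometric_two' ε
  have hsummT : ∀ z, Summable fun k => T (S k) k z := by
    intro z
    obtain ⟨k0, hk0⟩ := exists_nat_ge ‖z‖
    refine (summable_nat_add_iff k0).1 ?_
    refine Summable.of_norm_bounded ((summable_nat_add_iff k0).2 hsumm) fun k => ?_
    refine hbound _ _ ?_
    have := ptB_ge (N + (k + k0))
    push_cast at this
    have h1 : (0 : ℝ) ≤ N := Nat.cast_nonneg N
    have h2 : (0 : ℝ) ≤ k := Nat.cast_nonneg k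
    linarith
  refine ⟨fun z => f z + ∑' k, T (S k) k z, ?_, ?_, ?_⟩
  · intro z0
    obtain ⟨k0, hk0⟩ := exists_nat_gt ‖z0‖
    have hU : Metric.ball (0 : ℂ) k0 ∈ 𝓝 z0 := Metric.isOpen_ball.mem_nhds (by simpa using hk0)
    have hd : DifferentiableOn ℂ (fun z => ∑' k, T (S (k + k0)) (k + k0) z)
        (Metric.ball (0 : ℂ) k0) := by
      refine Complex.differentiableOn_tsum_of_summable_norm
        ((summable_nat_add_iff k0).2 hsumm) (fun k => (hTd _ _).differentiableOn)
        Metric.isOpen_ball fun k z hz => hbound _ _ ?_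
      have := ptB_ge (N + (k + k0))
      push_cast at this
      have h1 : (0 : ℝ) ≤ N := Nat.cast_nonneg N
      have h2 : (0 : ℝ) ≤ k := Nat.cast_nonneg k
      have h3 : ‖z‖ < k0 := by simpa using hz
      linarith
    have heq : (fun z => f z + ∑' k, T (S k) k z) =
        fun z => S k0 z + ∑' k, T (S (k + k0)) (k + k0) z := by
      ext z
      rw [hSsum k0 z, add_assoc, (hsummT z).sum_add_tsum_nat_add k0]
    rw [heq]
    exact (hSd k0 z0).add (hd.differentiableAt hU)
  · intro n
    have h1 : f (ptA n) + ∑' k, T (S k) k (ptA n) = S (n + 1) (ptA n) := by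
      rw [hSsum, tsum_eq_sum (s := Finset.range (n + 1))]
      intro k hk
      exact hTa' n k (by rw [Finset.mem_range] at hk; omega)
    have h2 : f (ptB n) + ∑' k, T (S k) k (ptB n) = S (n + 1) (ptB n) := by
      rw [hSsum, tsum_eq_sum (s := Finset.range (n + 1))]
      intro k hk
      exact hTb' n k (by rw [Finset.mem_range] at hk; omega)
    simp only
    rw [h1, h2]
    exact hinv (n + 1) n (by omega)
  · intro z hz
    rw [add_sub_cancel_left]
    have hb : ∀ k, ‖T (S k) k z‖ ≤ ε / 2 / 2 ^ k := fun k => hbound k z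
      (hz.trans (by
        have := ptB_strictMono.monotone (Nat.le_add_right N k)
        linarith))
    calc ‖∑' k, T (S k) k z‖ ≤ ∑' k : ℕ, ε / 2 / 2 ^ k := tsum_of_norm_bounded hsumm.hasSum hb
      _ = ε := tsum_geometric_two' ε


/-! ### The algebra of entire functions and its subalgebra -/

/-- the inclusion of the algebra of entire functions in `C(ℂ, ℂ)` -/
noncomputable def Entire.incl : Entire →ₐ[ℂ] C(ℂ, ℂ) := holC.val

theorem Entire.isUniformEmbedding_incl : IsUniformEmbedding Entire.incl :=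
  isUniformEmbedding_subtype_val

theorem isUniformAddGroup_CC : IsUniformAddGroup C(ℂ, ℂ) := by
  let φ : C(ℂ, ℂ) →+ (ℂ →ᵤ[{K | IsCompact K}] ℂ) :=
    { toFun := ContinuousMap.toUniformOnFunIsCompact
      map_zero' := rfl
      map_add' := fun _ _ => rfl }
  have h : IsUniformInducing φ :=
    (ContinuousMap.isUniformEmbedding_toUniformOnFunIsCompact (α := ℂ) (β := ℂ)).isUniformInducing
  exact h.isUniformAddGroup φ

instance : IsUniformAddGroup Entire :=
  haveI := isUniformAddGroup_CC
  Entire.isUniformEmbedding_incl.isUniformInducing.isUniformAddGroup Entire.incl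

theorem isClosed_holC : IsClosed (holC : Set C(ℂ, ℂ)) := by
  refine isClosed_of_closure_subset fun f hf => ?_
  rw [mem_closure_iff_clusterPt, ClusterPt] at hf
  have h1 : Tendsto (fun g : C(ℂ, ℂ) => g) (𝓝 f ⊓ 𝓟 (holC : Set C(ℂ, ℂ))) (𝓝 f) := inf_le_left
  rw [ContinuousMap.tendsto_iff_tendstoLocallyUniformly,
    ← tendstoLocallyUniformlyOn_univ] at h1
  have h2 := h1.differentiableOn (F := fun (g : C(ℂ, ℂ)) z => g z) (f := f) ?_ isOpen_univ
  · exact differentiableOn_univ.1 h2
  · filter_upwards [mem_inf_of_right (mem_principal_self _)] with g hg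
    exact (show Differentiable ℂ g from hg).differentiableOn

instance : CompleteSpace Entire := isClosed_holC.completeSpace_coe
instance : (uniformity Entire).IsCountablyGenerated :=
  Entire.isUniformEmbedding_incl.isUniformInducing.comap_uniformity ▸
    Filter.comap.isCountablyGenerated _ _
instance : T2Space Entire := Entire.isUniformEmbedding_incl.isEmbedding.t2Space

instance : ContinuousMul Entire := ⟨by
    rw [Entire.isUniformEmbedding_incl.isEmbedding.isInducing.continuous_iff]
    exact ((Entire.isUniformEmbedding_incl.isEmbedding.continuous.comp continuous_fst).mul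
      (Entire.isUniformEmbedding_incl.isEmbedding.continuous.comp continuous_snd) : _)⟩

instance : ContinuousSMul ℂ Entire := ⟨by
    rw [Entire.isUniformEmbedding_incl.isEmbedding.isInducing.continuous_iff]
    exact (continuous_fst.smul
      (Entire.isUniformEmbedding_incl.isEmbedding.continuous.comp continuous_snd) :
      Continuous fun p : ℂ × Entire => p.1 • Entire.incl p.2)⟩

instance (S : Subalgebra ℂ Entire) : IsUniformAddGroup S :=
  (isUniformEmbedding_subtype_val (p := fun x => x ∈ S)).isUniformInducing.isUniformAddGroup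
    S.val

instance (S : Subalgebra ℂ Entire) : (uniformity S).IsCountablyGenerated :=
  (isUniformEmbedding_subtype_val (p := fun x => x ∈ S)).isUniformInducing.comap_uniformity ▸
    Filter.comap.isCountablyGenerated _ _

theorem continuous_eval_Entire (z : ℂ) : Continuous fun f : Entire => f.1 z :=
  (continuous_eval_const z).comp Entire.isUniformEmbedding_incl.isEmbedding.continuous

/-- The algebra of all entire functions `f` with `f (ptA n) = f (ptB n)` for all `n`. -/
def subB : Subalgebra ℂ Entire where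
  carrier := {f | ∀ n, f.1 (ptA n) = f.1 (ptB n)}
  mul_mem' {f g} hf hg n := by
    have h1 : f.1 (ptA n) = f.1 (ptB n) := hf n
    have h2 : g.1 (ptA n) = g.1 (ptB n) := hg n
    change f.1 (ptA n) * g.1 (ptA n) = f.1 (ptB n) * g.1 (ptB n)
    rw [h1, h2]
  add_mem' {f g} hf hg n := by
    have h1 : f.1 (ptA n) = f.1 (ptB n) := hf n
    have h2 : g.1 (ptA n) = g.1 (ptB n) := hg n
    change f.1 (ptA n) + g.1 (ptA n) = f.1 (ptB n) + g.1 (ptB n)
    rw [h1, h2]
  algebraMap_mem' c n := rfl

theorem isClosed_subB : IsClosed (subB : Set Entire) := by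
  have : (subB : Set Entire) = ⋂ n, {f : Entire | f.1 (ptA n) = f.1 (ptB n)} := by
    ext f
    rw [mem_iInter]
    rfl
  rw [this]
  exact isClosed_iInter fun n =>
    isClosed_eq (continuous_eval_Entire _) (continuous_eval_Entire _)

instance : CompleteSpace subB := isClosed_subB.completeSpace_coe

/-- the element of `subB` given by a function with the right properties -/
def mkB (g : ℂ → ℂ) (hg : Differentiable ℂ g) (h : ∀ n, g (ptA n) = g (ptB n)) : subB :=
  ⟨(⟨⟨g, hg.continuous⟩, hg⟩ : holC), h⟩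

@[simp] theorem mkB_apply (g : ℂ → ℂ) (hg : Differentiable ℂ g)
    (h : ∀ n, g (ptA n) = g (ptB n)) (z : ℂ) : (mkB g hg h).1.1 z = g z := rfl

theorem differentiable_coe (f : Entire) : Differentiable ℂ f.1 := f.2

theorem mul_coe (f g : subB) (z : ℂ) : (f * g).1.1 z = f.1.1 z * g.1.1 z := rfl
theorem add_coe (f g : subB) (z : ℂ) : (f + g).1.1 z = f.1.1 z + g.1.1 z := rfl
theorem sub_coe (f g : subB) (z : ℂ) : (f - g).1.1 z = f.1.1 z - g.1.1 z := rfl
theorem smul_coe (c : ℂ) (g : subB) (z : ℂ) : (c • g).1.1 z = c * g.1.1 z := rfl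
theorem one_coe (z : ℂ) : (1 : subB).1.1 z = 1 := rfl
theorem pow_coe (f : subB) (m : ℕ) (z : ℂ) : (f ^ m).1.1 z = f.1.1 z ^ m := by
  induction m with
  | zero => rw [pow_zero, pow_zero]; rfl
  | succ m ih => rw [pow_succ, pow_succ, mul_coe, ih]

/-- A neighbourhood of `0` contains all entire functions that are small on some disc. -/
theorem Entire.exists_of_mem_nhds_zero {V : Set Entire} (hV : V ∈ 𝓝 (0 : Entire)) :
    ∃ R : ℝ, ∃ ε : ℝ, 0 < R ∧ 0 < ε ∧ ∀ f : Entire, (∀ z, ‖z‖ ≤ R → ‖f.1 z‖ < ε) → f ∈ V := by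
  rw [Entire.isUniformEmbedding_incl.isUniformInducing.isInducing.nhds_eq_comap, mem_comap] at hV
  obtain ⟨W, hW, hWV⟩ := hV
  have h0 : Entire.incl (0 : Entire) = 0 := rfl
  rw [h0, UniformSpace.mem_nhds_iff] at hW
  obtain ⟨U, hU, hUW⟩ := hW
  rw [(Metric.uniformity_basis_dist (α := ℂ)).compactConvergenceUniformity.mem_iff] at hU
  obtain ⟨⟨K, ε⟩, ⟨hK, hε⟩, hKU⟩ := hU
  obtain ⟨R, hR⟩ := hK.isBounded.subset_closedBall 0
  refine ⟨max R 1, ε, by positivity, hε, fun f hf => hWV (hUW (hKU ?_))⟩
  intro x hx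
  have h2 : ‖x‖ ≤ max R 1 := by
    have := hR hx
    rw [mem_closedBall_zero_iff] at this
    exact this.trans (le_max_left _ _)
  have h3 := hf x h2
  change dist ((0 : C(ℂ, ℂ)) x) (f.1 x) < ε
  rw [ContinuousMap.zero_apply, dist_zero_left]
  exact h3

/-- A neighbourhood of `0` contains all functions that are small on some disc. -/
theorem exists_of_mem_nhds_zero {V : Set subB} (hV : V ∈ 𝓝 (0 : subB)) :
    ∃ R : ℝ, ∃ ε : ℝ, 0 < R ∧ 0 < ε ∧ ∀ f : subB, (∀ z, ‖z‖ ≤ R → ‖f.1.1 z‖ < ε) → f ∈ V := by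
  rw [nhds_subtype_eq_comap, mem_comap] at hV
  obtain ⟨W, hW, hWV⟩ := hV
  obtain ⟨R, ε, hR, hε, h⟩ := Entire.exists_of_mem_nhds_zero hW
  exact ⟨R, ε, hR, hε, fun f hf => hWV (h f.1 hf)⟩

/-- Banach-Steinhaus: a compact set of characters of `subB` is controlled by one disc. -/
theorem exists_radius {K : Set (characterSpace ℂ subB)} (hK : IsCompact K) :
    ∃ R : ℝ, 0 < R ∧ ∀ f : subB, ∀ c : ℝ, 0 < c → (∀ z, ‖z‖ ≤ R → ‖f.1.1 z‖ < c) →
      ∀ φ ∈ K, ‖φ f‖ < c := by
  have hBS : UniformEquicontinuous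
      ((↑) ∘ fun φ : K => (CharacterSpace.toCLM φ.1 : subB →L[ℂ] ℂ)) := by
    refine (norm_withSeminorms ℂ ℂ).banach_steinhaus fun _ f => ?_
    have hc : ContinuousOn (fun φ : characterSpace ℂ subB => ‖φ f‖) K :=
      ((gelfandTransform ℂ subB f).continuous.norm).continuousOn
    obtain ⟨C, hC⟩ := (hK.image_of_continuousOn hc).bddAbove
    refine ⟨C, ?_⟩
    rintro _ ⟨φ, rfl⟩
    exact hC ⟨φ.1, φ.2, rfl⟩
  have hE := hBS.equicontinuous 0 {p : ℂ × ℂ | dist p.1 p.2 < 1} (Metric.dist_mem_uniformity one_pos)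
  obtain ⟨R, ε, hR, hε, h⟩ := exists_of_mem_nhds_zero hE
  have key : ∀ f : subB, (∀ z, ‖z‖ ≤ R → ‖f.1.1 z‖ < 1) → ∀ φ ∈ K, ‖φ f‖ < 1 := by
    intro f hf φ hφ
    -- the supremum on the disc is less than one
    have hcomp : IsCompact (Metric.closedBall (0 : ℂ) R) := ProperSpace.isCompact_closedBall _ _
    obtain ⟨z0, hz0, hmax⟩ := hcomp.exists_isMaxOn ⟨0, Metric.mem_closedBall_self hR.le⟩
      (f := fun z => ‖f.1.1 z‖) (f.1.1.continuous.norm.continuousOn)
    have hs1 : ‖f.1.1 z0‖ < 1 := hf z0 (by simpa using hz0)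
    obtain ⟨m, hm⟩ := exists_pow_lt_of_lt_one hε hs1
    have hfm : f ^ m ∈ {g : subB | ∀ i : K, dist (CharacterSpace.toCLM i.1 0)
        (CharacterSpace.toCLM i.1 g) < 1} := by
      refine h (f ^ m) fun z hz => ?_
      rw [pow_coe, norm_pow]
      refine lt_of_le_of_lt (pow_le_pow_left₀ (norm_nonneg _) ?_ m) hm
      exact hmax (by simpa using hz)
    have h2 := hfm ⟨φ, hφ⟩
    simp only [CharacterSpace.coe_toCLM, map_zero, dist_zero_left, map_pow, norm_pow] at h2
    by_contra hcon
    push Not at hcon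
    exact absurd h2 (not_lt.2 (one_le_pow₀ hcon))
  refine ⟨R, hR, fun f c hc hf φ hφ => ?_⟩
  have h1 := key ((c : ℂ)⁻¹ • f) (fun z hz => by
    rw [smul_coe, norm_mul, norm_inv, Complex.norm_real, Real.norm_of_nonneg hc.le,
      inv_mul_lt_iff₀ hc, mul_one]
    exact hf z hz) φ hφ
  rwa [map_smul, smul_eq_mul, norm_mul, norm_inv, Complex.norm_real, Real.norm_of_nonneg hc.le,
      inv_mul_lt_iff₀ hc, mul_one] at h1

/-! ### Every character of `subB` is a point evaluation -/

/-- `Graph φ R h c`: some sequence of elements of `subB` converges to `h`, uniformly on the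
disc of radius `R`, and its image by `φ` converges to `c`. -/
def Graph (φ : characterSpace ℂ subB) (R : ℝ) (h : ℂ → ℂ) (c : ℂ) : Prop :=
  ∃ s : ℕ → subB, TendstoLocallyUniformlyOn (fun k z => (s k).1.1 z) h atTop
    (Metric.closedBall 0 R) ∧ Tendsto (fun k => φ (s k)) atTop (𝓝 c)

section Graph

variable {φ : characterSpace ℂ subB} {R : ℝ}

theorem Graph.mul {h h' : ℂ → ℂ} {c c' : ℂ} (H : Graph φ R h c) (H' : Graph φ R h' c')
    (hh : Continuous h) (hh' : Continuous h') : Graph φ R (fun z => h z * h' z) (c * c') := by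
  obtain ⟨s, hs, hc⟩ := H
  obtain ⟨s', hs', hc'⟩ := H'
  refine ⟨fun k => s k * s' k, ?_, ?_⟩
  · exact hs.mul₀ hs' hh.continuousOn hh'.continuousOn
  · simp only [map_mul]
    exact hc.mul hc'

theorem Graph.sub {h h' : ℂ → ℂ} {c c' : ℂ} (H : Graph φ R h c) (H' : Graph φ R h' c') :
    Graph φ R (fun z => h z - h' z) (c - c') := by
  obtain ⟨s, hs, hc⟩ := H
  obtain ⟨s', hs', hc'⟩ := H'
  refine ⟨fun k => s k - s' k, ?_, ?_⟩
  · exact hs.sub hs'
  · simp only [map_sub]
    exact hc.sub hc'

theorem Graph.of_mem (f : subB) : Graph φ R (fun z => f.1.1 z) (φ f) :=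
  ⟨fun _ => f, by
    intro u hu x _
    exact ⟨univ, univ_mem, Eventually.of_forall fun _ y _ => refl_mem_uniformity hu⟩,
    tendsto_const_nhds⟩

theorem Graph.const (c : ℂ) : Graph φ R (fun _ => c) c := by
  have h := Graph.of_mem (φ := φ) (R := R) (c • (1 : subB))
  rw [map_smul, map_one, smul_eq_mul, mul_one] at h
  have h2 : (fun z => (c • (1 : subB)).1.1 z) = fun _ => c := by
    ext z
    rw [smul_coe, one_coe, mul_one]
  rwa [h2] at h

variable (hR : ∀ f : subB, ∀ c : ℝ, 0 < c → (∀ z, ‖z‖ ≤ R → ‖f.1.1 z‖ < c) → ‖φ f‖ < c)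

include hR

theorem Graph.unique {h : ℂ → ℂ} {c c' : ℂ} (H : Graph φ R h c) (H' : Graph φ R h c') :
    c = c' := by
  obtain ⟨s, hs, hc⟩ := H.sub H'
  simp only [sub_self] at hs
  rw [← sub_eq_zero]
  refine tendsto_nhds_unique hc ?_
  rw [tendstoLocallyUniformlyOn_iff_tendstoUniformlyOn_of_compact
    (ProperSpace.isCompact_closedBall _ _), Metric.tendstoUniformlyOn_iff] at hs
  rw [Metric.tendsto_nhds]
  intro ε hε
  filter_upwards [hs ε hε] with k hk
  rw [dist_zero_right]
  refine hR _ ε hε fun z hz => ?_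
  have := hk z (by simpa using hz)
  rwa [dist_zero_left] at this

theorem Graph.exists {h : ℂ → ℂ} (hh : Differentiable ℂ h) {N : ℕ} (hN : R ≤ ptB N - 1)
    (ha : ∀ n < N, h (ptA n) = 0) (hb : ∀ n < N, h (ptB n) = 0) : ∃ c, Graph φ R h c := by
  have hε : ∀ k : ℕ, (0 : ℝ) < 1 / (k + 1) := fun k => by positivity
  choose g hg1 hg2 hg3 using fun k : ℕ => exists_approx h hh N
    (fun n hn => by rw [ha n hn, hb n hn]) (hε k)
  have hlim : Tendsto (fun k : ℕ => (1 : ℝ) / (k + 1)) atTop (𝓝 0) :=
    tendsto_one_div_add_atTop_nhds_zero_nat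
  have hcau : CauchySeq fun k => φ (mkB (g k) (hg1 k) (hg2 k)) := by
    rw [Metric.cauchySeq_iff]
    intro ε hε
    obtain ⟨K, hK⟩ := (hlim.eventually (gt_mem_nhds (half_pos hε))).exists
    refine ⟨K, fun m hm n hn => ?_⟩
    rw [dist_eq_norm, ← map_sub]
    refine hR _ ε hε fun z hz => ?_
    rw [sub_coe, mkB_apply, mkB_apply]
    have h1 := hg3 m z (hz.trans hN)
    have h2 := hg3 n z (hz.trans hN)
    have h3 : (1 : ℝ) / (m + 1) ≤ 1 / (K + 1) := by gcongr
    have h4 : (1 : ℝ) / (n + 1) ≤ 1 / (K + 1) := by gcongr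
    calc ‖g m z - g n z‖ = ‖(g m z - h z) - (g n z - h z)‖ := by ring_nf
      _ ≤ ‖g m z - h z‖ + ‖g n z - h z‖ := norm_sub_le _ _
      _ < ε := by linarith
  obtain ⟨c, hc⟩ := cauchySeq_tendsto_of_complete hcau
  refine ⟨c, fun k => mkB (g k) (hg1 k) (hg2 k), ?_, hc⟩
  refine TendstoUniformlyOn.tendstoLocallyUniformlyOn ?_
  rw [Metric.tendstoUniformlyOn_iff]
  intro ε hε
  filter_upwards [hlim.eventually (gt_mem_nhds hε)] with k hk z hz
  rw [mkB_apply, dist_comm, dist_eq_norm]
  exact (hg3 k z ((by simpa using hz : ‖z‖ ≤ R).trans hN)).trans_lt hk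

end Graph

/-- the polynomial vanishing at the first `N` pairs of special points -/
noncomputable def qpol (N : ℕ) (z : ℂ) : ℂ :=
  ∏ n ∈ Finset.range N, ((z - ptA n) * (z - (ptB n : ℂ)))

theorem differentiable_qpol (N : ℕ) : Differentiable ℂ (qpol N) := by
  unfold qpol; fun_prop

theorem qpol_ptA {N n : ℕ} (h : n < N) : qpol N (ptA n) = 0 :=
  Finset.prod_eq_zero (Finset.mem_range.2 h) (by simp)

theorem qpol_ptB {N n : ℕ} (h : n < N) : qpol N (ptB n) = 0 :=
  Finset.prod_eq_zero (Finset.mem_range.2 h) (by simp)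

theorem dslope_spec {f : ℂ → ℂ} (hf : Differentiable ℂ f) (x : ℂ) (hx : f x = 0) :
    Differentiable ℂ (dslope f x) ∧ ∀ z, f z = (z - x) * dslope f x z := by
  refine ⟨?_, fun z => ?_⟩
  · rw [← differentiableOn_univ, Complex.differentiableOn_dslope univ_mem, differentiableOn_univ]
    exact hf
  · have := sub_smul_dslope f x z
    rw [smul_eq_mul, hx, sub_zero] at this
    exact this.symm

theorem character_eq_eval (φ : characterSpace ℂ subB) : ∃ z : ℂ, ∀ f : subB, φ f = f.1.1 z := by
  by_contra hcon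
  push Not at hcon
  -- for every point, a function vanishing there, and not killed by the character
  have hF : ∀ z : ℂ, ∃ F : subB, F.1.1 z = 0 ∧ φ F ≠ 0 := by
    intro z
    obtain ⟨f, hf⟩ := hcon z
    refine ⟨f - (f.1.1 z) • (1 : subB), ?_, ?_⟩
    · rw [sub_coe, smul_coe, one_coe, mul_one, sub_self]
    · rw [map_sub, map_smul, map_one, smul_eq_mul, mul_one]
      exact sub_ne_zero.2 hf
  choose F hF0 hFφ using hF
  obtain ⟨R, hR0, hR'⟩ := exists_radius (K := {φ}) isCompact_singleton
  have hR : ∀ f : subB, ∀ c : ℝ, 0 < c → (∀ z, ‖z‖ ≤ R → ‖f.1.1 z‖ < c) → ‖φ f‖ < c :=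
    fun f c hc hf => hR' f c hc hf φ rfl
  obtain ⟨N, hN⟩ := exists_nat_ge R
  have hRN : R ≤ ptB N - 1 := by linarith [ptB_ge N]
  have hqd := differentiable_qpol N
  -- the quotients
  have hG : ∀ x, Differentiable ℂ (dslope (fun z => (F x).1.1 z) x) ∧
      ∀ z, (F x).1.1 z = (z - x) * dslope (fun z => (F x).1.1 z) x z := fun x =>
    dslope_spec (f := fun z => (F x).1.1 z) (differentiable_coe (F x).1) x (hF0 x)
  choose hGd hGF using hG
  set G : ℂ → ℂ → ℂ := fun x => dslope (fun z => (F x).1.1 z) x with hGdef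
  -- step 1: `qpol N` is not killed
  obtain ⟨cq, hcq⟩ := Graph.exists (φ := φ) hR hqd hRN (fun n hn => qpol_ptA hn)
    (fun n hn => qpol_ptB hn)
  have hcq0 : cq ≠ 0 := by
    set P : subB := ∏ n ∈ Finset.range N, (F (ptA n) * F (ptB n)) with hP
    set k : ℂ → ℂ := fun z => ∏ n ∈ Finset.range N, (G (ptA n) z * G (ptB n) z) with hk
    have hkd : Differentiable ℂ k := by
      rw [hk]
      exact Differentiable.fun_finsetProd fun n _ => (hGd _).mul (hGd _)
    have hPk : ∀ z, P.1.1 z = qpol N z * k z := by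
      intro z
      have h1 : P.1.1 z = ∏ n ∈ Finset.range N, ((F (ptA n)).1.1 z * (F (ptB n)).1.1 z) := by
        let evz : subB →* ℂ :=
          { toFun := fun f => f.1.1 z
            map_one' := one_coe z
            map_mul' := fun f g => mul_coe f g z }
        have := map_prod evz (fun n => F (ptA n) * F (ptB n)) (Finset.range N)
        exact this
      rw [h1, qpol, hk, ← Finset.prod_mul_distrib]
      refine Finset.prod_congr rfl fun n _ => ?_
      rw [hGF (ptA n) z, hGF (ptB n) z]
      ring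
    have hPφ : φ P ≠ 0 := by
      rw [hP, map_prod]
      refine Finset.prod_ne_zero_iff.2 fun n _ => ?_
      rw [map_mul]
      exact mul_ne_zero (hFφ _) (hFφ _)
    obtain ⟨c', hc'⟩ := Graph.exists (φ := φ) hR (h := fun z => qpol N z * (k z * k z))
      (hqd.mul (hkd.mul hkd)) hRN (fun n hn => by simp only [qpol_ptA hn, zero_mul])
      (fun n hn => by simp only [qpol_ptB hn, zero_mul])
    have h1 := hcq.mul hc' hqd.continuous (hqd.mul (hkd.mul hkd)).continuous
    have h2 := Graph.of_mem (φ := φ) (R := R) (P * P)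
    have h3 : (fun z => (P * P).1.1 z) = fun z => qpol N z * (qpol N z * (k z * k z)) := by
      ext z
      rw [mul_coe, hPk]
      ring
    rw [h3] at h2
    have h4 := Graph.unique hR h1 h2
    rintro rfl
    rw [zero_mul, map_mul] at h4
    exact mul_ne_zero hPφ hPφ h4.symm
  -- step 2: the point
  obtain ⟨c1, hc1⟩ := Graph.exists (φ := φ) hR (h := fun z => z * qpol N z)
    (differentiable_id.mul hqd) hRN (fun n hn => by simp only [qpol_ptA hn, mul_zero])
      (fun n hn => by simp only [qpol_ptB hn, mul_zero])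
  set z0 : ℂ := c1 / cq with hz0
  obtain ⟨c2, hc2⟩ := Graph.exists (φ := φ) hR (h := fun z => qpol N z * G z0 z)
    (hqd.mul (hGd z0)) hRN (fun n hn => by simp only [qpol_ptA hn, zero_mul])
      (fun n hn => by simp only [qpol_ptB hn, zero_mul])
  have hidq : Continuous fun z : ℂ => z * qpol N z := continuous_id.mul hqd.continuous
  have hcq' : Continuous fun z : ℂ => z0 * qpol N z := continuous_const.mul hqd.continuous
  have h1 := (hc1.sub ((Graph.const z0).mul hcq continuous_const hqd.continuous)).mul hc2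
    (hidq.sub hcq') (hqd.mul (hGd z0)).continuous
  have h2 := (hcq.mul hcq hqd.continuous hqd.continuous).mul
    (Graph.of_mem (φ := φ) (R := R) (F z0)) (hqd.continuous.mul hqd.continuous)
    (F z0).1.1.continuous
  have h3 : (fun z => (z * qpol N z - z0 * qpol N z) * (qpol N z * G z0 z)) =
      fun z => qpol N z * qpol N z * (F z0).1.1 z := by
    ext z
    rw [hGF z0 z]
    ring
  rw [h3] at h1
  have h4 := Graph.unique hR h1 h2
  have h5 : c1 - z0 * cq = 0 := by
    rw [hz0, div_mul_cancel₀ _ hcq0, sub_self]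
  rw [h5, zero_mul] at h4
  exact mul_ne_zero (mul_ne_zero hcq0 hcq0) (hFφ z0) h4.symm

/-! ### Compact sets of characters have empty interior -/

/-- evaluation at a point, as a character of `subB` -/
noncomputable def evB (z : ℂ) : characterSpace ℂ subB :=
  ⟨({ toFun := fun f => f.1.1 z
      map_add' := fun _ _ => rfl
      map_smul' := fun _ _ => rfl
      cont := (continuous_eval_Entire z).comp continuous_subtype_val } : subB →L[ℂ] ℂ), by
    refine ⟨fun h => ?_, fun _ _ => rfl⟩
    have : (1 : ℂ) = 0 := DFunLike.congr_fun h (1 : subB)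
    exact one_ne_zero this⟩

theorem evB_apply (z : ℂ) (f : subB) : evB z f = f.1.1 z := rfl

theorem continuous_evB : Continuous evB := by
  refine Continuous.subtype_mk ?_ _
  refine WeakDual.continuous_of_continuous_eval fun f => ?_
  exact f.1.1.continuous

theorem interior_eq_empty_of_isCompact {K : Set (characterSpace ℂ subB)} (hK : IsCompact K) :
    interior K = ∅ := by
  rw [eq_empty_iff_forall_notMem]
  intro φ0 hφ0
  obtain ⟨R, hR0, hR⟩ := exists_radius hK
  set W : Set ℂ := evB ⁻¹' interior K with hW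
  have hWo : IsOpen W := isOpen_interior.preimage continuous_evB
  have hWK : ∀ z ∈ W, evB z ∈ K := fun z hz => interior_subset hz
  have hWne : W.Nonempty := by
    obtain ⟨z0, hz0⟩ := character_eq_eval φ0
    refine ⟨z0, ?_⟩
    have : evB z0 = φ0 := by
      ext f
      rw [hz0 f, evB_apply]
    rw [hW, mem_preimage, this]
    exact hφ0
  obtain ⟨M, hM⟩ := exists_nat_ge R
  -- a far away point of `W`
  obtain ⟨n, hnM, hnW⟩ : ∃ n, M ≤ n ∧ ptA n ∈ W := by
    have hd : Dense (range ptA \ (ptA '' (Finset.range M : Set ℕ))) :=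
      (TopologicalSpace.denseRange_denseSeq ℂ).sdiff_finite ((Finset.finite_toSet _).image _)
    obtain ⟨x, hx1, hx2⟩ := hd.inter_open_nonempty W hWo hWne
    obtain ⟨⟨n, rfl⟩, hn⟩ := hx2
    refine ⟨n, ?_, hx1⟩
    by_contra hlt
    push Not at hlt
    exact hn ⟨n, by simpa using hlt, rfl⟩
  have hnW' : (ptB n : ℂ) ∈ W := by
    have : evB (ptB n) = evB (ptA n) := by
      ext f
      rw [evB_apply, evB_apply]
      exact (f.2 n).symm
    rw [hW, mem_preimage, this]
    exact hnW
  have hWo' : IsOpen (W ∩ {z | R < ‖z‖}) :=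
    hWo.inter (isOpen_lt continuous_const continuous_norm)
  have hWne' : (W ∩ {z | R < ‖z‖}).Nonempty := by
    refine ⟨ptB n, hnW', ?_⟩
    rw [mem_ofPred_eq, Complex.norm_real, Real.norm_of_nonneg (ptB_pos n).le]
    have h1 := ptB_ge n
    have h2 : (M : ℝ) ≤ n := by exact_mod_cast hnM
    linarith
  -- a generic point
  obtain ⟨w, ⟨hwW, hwR⟩, hwA⟩ : ∃ w, w ∈ W ∩ {z | R < ‖z‖} ∧
      w ∈ (range ptA ∪ range fun n => (ptB n : ℂ))ᶜ := by
    have hc : (range ptA ∪ range fun n => (ptB n : ℂ)).Countable :=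
      (countable_range _).union (countable_range _)
    exact (hc.dense_compl ℝ).inter_open_nonempty _ hWo' hWne'
  have hwR : R < ‖w‖ := hwR
  have hw0 : w ≠ 0 := by
    rintro rfl
    rw [norm_zero] at hwR
    linarith
  obtain ⟨N, hN⟩ := exists_nat_ge ‖w‖
  have hwN : ‖w‖ ≤ ptB N - 1 := by linarith [ptB_ge N]
  have hqw : qpol N w ≠ 0 := by
    rw [qpol]
    refine Finset.prod_ne_zero_iff.2 fun m _ => mul_ne_zero ?_ ?_
    · intro h
      exact hwA (Or.inl ⟨m, (sub_eq_zero.1 h).symm⟩)
    · intro h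
      exact hwA (Or.inr ⟨m, (sub_eq_zero.1 h).symm⟩)
  have hqd := differentiable_qpol N
  obtain ⟨C, hC⟩ : ∃ C : ℝ, ∀ z ∈ Metric.closedBall (0 : ℂ) R, ‖qpol N z * (2 / qpol N w)‖ ≤ C :=
    (ProperSpace.isCompact_closedBall _ _).exists_bound_of_continuousOn
      (hqd.continuous.mul continuous_const).continuousOn
  have hC0 : 0 ≤ C := (norm_nonneg _).trans (hC 0 (Metric.mem_closedBall_self hR0.le))
  have hr1 : R / ‖w‖ < 1 := by
    rw [div_lt_one (hR0.trans hwR)]; exact hwR
  have hr0 : 0 ≤ R / ‖w‖ := div_nonneg hR0.le (norm_nonneg _)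
  have hlim : Tendsto (fun m : ℕ => C * (R / ‖w‖) ^ m) atTop (𝓝 (C * 0)) :=
    (tendsto_pow_atTop_nhds_zero_of_lt_one hr0 hr1).const_mul C
  rw [mul_zero] at hlim
  obtain ⟨m, hm⟩ := (hlim.eventually (gt_mem_nhds (show (0 : ℝ) < 1 / 2 by norm_num))).exists
  set f : ℂ → ℂ := fun z => qpol N z * (2 / qpol N w) * (z / w) ^ m with hf
  have hfd : Differentiable ℂ f := by
    rw [hf]
    exact (hqd.mul_const _).mul ((differentiable_id.div_const _).pow _)
  obtain ⟨g, hg1, hg2, hg3⟩ := exists_approx f hfd N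
    (fun n hn => by simp only [hf, qpol_ptA hn, qpol_ptB hn, zero_mul])
    (show (0 : ℝ) < 1 / 4 by norm_num)
  have hgR : ∀ z, ‖z‖ ≤ R → ‖g z‖ < 1 := by
    intro z hz
    have h1 := hg3 z (hz.trans (hwR.le.trans hwN))
    have h2 : ‖f z‖ ≤ C * (R / ‖w‖) ^ m := by
      rw [hf]
      simp only
      rw [norm_mul, norm_pow, norm_div]
      refine mul_le_mul (hC z (by simpa using hz)) ?_ (by positivity) hC0
      gcongr
    calc ‖g z‖ = ‖(g z - f z) + f z‖ := by ring_nf
      _ ≤ ‖g z - f z‖ + ‖f z‖ := norm_add_le _ _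
      _ < 1 := by linarith
  have h1 := hR (mkB g hg1 hg2) 1 one_pos hgR (evB w) (hWK w hwW)
  rw [evB_apply, mkB_apply] at h1
  have h2 := hg3 w hwN
  have h3 : f w = 2 := by
    rw [hf]
    simp only
    rw [div_self hw0, one_pow, mul_one, mul_div_cancel₀ _ hqw]
  rw [h3] at h2
  have h4 : (2 : ℝ) ≤ ‖g w - 2‖ + ‖g w‖ := by
    calc (2 : ℝ) = ‖(2 : ℂ)‖ := by simp
      _ = ‖g w - (g w - 2)‖ := by ring_nf
      _ ≤ ‖g w‖ + ‖g w - 2‖ := norm_sub_le _ _
      _ = _ := add_comm _ _
  linarith

/-- A complex space is locally compact. -/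
theorem ComplexSpaceStructure.exists_compact_nhds {Y : Type*} [TopologicalSpace Y]
    (S : ComplexSpaceStructure Y) (y : Y) : ∃ K : Set Y, IsCompact K ∧ K ∈ 𝓝 y := by
  obtain ⟨U, n, m, Ω, g, χ, hU, hy, hΩ, hg, hχ, hV, -⟩ := S.exists_chart y
  have hyV : χ y ∈ {z ∈ Ω | ∀ i, g i z = 0} := hV ▸ ⟨y, hy, rfl⟩
  obtain ⟨r, hr, hball⟩ := Metric.nhds_basis_closedBall.mem_iff.1 (hΩ.mem_nhds hyV.1)
  set K' : Set (Fin n → ℂ) := Metric.closedBall (χ y) r ∩ {z | ∀ i, g i z = 0} with hK'
  have hK'c : IsCompact K' := by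
    have hcl : IsClosed K' := by
      have : K' = Metric.closedBall (χ y) r ∩
          ⋂ i, (Metric.closedBall (χ y) r ∩ (g i) ⁻¹' {0}) := by
        ext z
        simp only [hK', mem_inter_iff, mem_iInter, mem_preimage, mem_singleton_iff,
          mem_ofPred_eq]
        constructor
        · rintro ⟨h1, h2⟩
          exact ⟨h1, fun i => ⟨h1, h2 i⟩⟩
        · rintro ⟨h1, h2⟩
          exact ⟨h1, fun i => (h2 i).2⟩
      rw [this]
      refine Metric.isClosed_closedBall.inter (isClosed_iInter fun i => ?_)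
      exact ((hg i).continuousOn.mono hball).preimage_isClosed_of_isClosed
        Metric.isClosed_closedBall isClosed_singleton
    exact (ProperSpace.isCompact_closedBall _ _).of_isClosed_subset hcl inter_subset_left
  have hK'r : K' ⊆ range (U.domRestrict χ) := by
    rw [Set.range_domRestrict, hV]
    exact fun z hz => ⟨hball hz.1, hz.2⟩
  have hpre : IsCompact ((U.domRestrict χ) ⁻¹' K') :=
    hχ.isInducing.isCompact_preimage' hK'c hK'r
  refine ⟨Subtype.val '' ((U.domRestrict χ) ⁻¹' K'), hpre.image continuous_subtype_val, ?_⟩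
  have h1 : (U.domRestrict χ) ⁻¹' K' ∈ 𝓝 (⟨y, hy⟩ : U) := by
    have h2 : (U.domRestrict χ) ⁻¹' (Metric.closedBall (χ y) r) ∈ 𝓝 (⟨y, hy⟩ : U) :=
      hχ.continuous.continuousAt (Metric.closedBall_mem_nhds _ hr)
    filter_upwards [h2] with u hu
    refine ⟨hu, ?_⟩
    have : U.domRestrict χ u ∈ {z ∈ Ω | ∀ i, g i z = 0} := hV ▸ ⟨u.1, u.2, rfl⟩
    exact this.2
  exact (hU.isOpenEmbedding_subtypeVal.image_mem_nhds).2 h1

theorem not_isLocallyStein_subB : ¬ IsLocallyStein subB := by
  rintro ⟨Y, hYo, ⟨y, hy⟩, S, -⟩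
  obtain ⟨K, hK, hKy⟩ := S.exists_compact_nhds ⟨y, hy⟩
  have h1' : IsCompact (Subtype.val '' K : Set (Spec subB)) := hK.image continuous_subtype_val
  have h1 : IsCompact (X := characterSpace ℂ subB) (Subtype.val '' K) := h1'
  have h2 : Subtype.val '' K ∈ 𝓝 y := (hYo.isOpenEmbedding_subtypeVal.image_mem_nhds).2 hKy
  have h3 : y ∈ interior (Subtype.val '' K) := mem_interior_iff_mem_nhds.2 h2
  have h4 : interior (Subtype.val '' K : Set (Spec subB)) = ∅ :=
    interior_eq_empty_of_isCompact h1
  rw [h4] at h3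
  exact h3

/-! ### The algebra of entire functions is a Stein algebra and is locally Stein -/

/-- the seminorms of the algebra of entire functions -/
noncomputable def discSeminorm (m : ℕ) : Seminorm ℂ Entire :=
  (normSeminorm ℂ C(Metric.closedBall (0 : ℂ) m, ℂ)).comp
    ({ toFun := fun f : Entire => f.1.restrict (Metric.closedBall (0 : ℂ) m)
       map_add' := fun _ _ => rfl
       map_smul' := fun _ _ => rfl } : Entire →ₗ[ℂ] C(Metric.closedBall (0 : ℂ) m, ℂ))

theorem discSeminorm_apply (m : ℕ) (f : Entire) :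
    discSeminorm m f = ‖f.1.restrict (Metric.closedBall (0 : ℂ) m)‖ := rfl

theorem discSeminorm_le {m : ℕ} {f : Entire} {c : ℝ} (hc : 0 ≤ c) :
    discSeminorm m f ≤ c ↔ ∀ z, ‖z‖ ≤ m → ‖f.1 z‖ ≤ c := by
  rw [discSeminorm_apply, ContinuousMap.norm_le _ hc]
  constructor
  · intro h z hz
    exact h ⟨z, by simpa using hz⟩
  · intro h z
    exact h z.1 (mem_closedBall_zero_iff.1 z.2)

theorem le_discSeminorm {m : ℕ} (f : Entire) {z : ℂ} (hz : ‖z‖ ≤ m) :
    ‖f.1 z‖ ≤ discSeminorm m f :=
  (discSeminorm_le (apply_nonneg _ _)).1 le_rfl z hz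

theorem isFrechetAlgebra_Entire : IsFrechetAlgebra Entire where
  nontrivial := ⟨⟨0, 1, fun h => by
    have : (0 : ℂ) = 1 := congrArg (fun f : Entire => f.1 0) h
    exact zero_ne_one this⟩⟩
  isUniformAddGroup := inferInstance
  t2 := inferInstance
  complete := inferInstance
  exists_seminorms := by
    refine ⟨discSeminorm, ?_, ?_, ?_⟩
    · intro m n hmn f
      have hmn' : (m : ℝ) ≤ n := by exact_mod_cast hmn
      exact (discSeminorm_le (apply_nonneg _ _)).2 fun z hz => le_discSeminorm f (hz.trans hmn')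
    · intro m x y
      rw [discSeminorm_le (by positivity)]
      intro z hz
      change ‖x.1 z * y.1 z‖ ≤ _
      rw [norm_mul]
      exact mul_le_mul (le_discSeminorm x hz) (le_discSeminorm y hz) (norm_nonneg _)
        (apply_nonneg _ _)
    · rw [SeminormFamily.withSeminorms_iff_nhds_eq_iInf]
      refine le_antisymm ?_ ?_
      · rw [le_iInf_iff]
        intro m
        have hc : Continuous (discSeminorm m) := by
          have h1 : Continuous fun f : Entire =>
              ‖(Entire.incl f).restrict (Metric.closedBall (0 : ℂ) m)‖ :=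
            continuous_norm.comp ((ContinuousMap.continuous_restrict _).comp
              Entire.isUniformEmbedding_incl.isEmbedding.continuous)
          exact h1
        rw [← tendsto_iff_comap]
        have := hc.tendsto 0
        rwa [map_zero] at this
      · intro V hV
        obtain ⟨R, ε, hR, hε, h⟩ := Entire.exists_of_mem_nhds_zero hV
        obtain ⟨m, hm⟩ := exists_nat_ge R
        refine mem_iInf_of_mem m ?_
        rw [mem_comap]
        refine ⟨Iio ε, Iio_mem_nhds hε, fun f hf => h f fun z hz => ?_⟩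
        exact (le_discSeminorm f (hz.trans hm)).trans_lt hf

/-- The complex structure on a space homeomorphic to the complex plane. -/
def planeStructure {Y : Type*} [TopologicalSpace Y] (e : Y ≃ₜ ℂ) : ComplexSpaceStructure Y where
  HolAt f y := AnalyticAt ℂ (fun z => f (e.symm z)) (e y)
  exists_chart y := by
    refine ⟨univ, 1, 0, univ, fun i => i.elim0, fun y _ => e y, isOpen_univ, mem_univ _,
      isOpen_univ, fun i => i.elim0, ?_, ?_, ?_⟩
    · have h1 : IsEmbedding (fun z : ℂ => (fun _ => z : Fin 1 → ℂ)) :=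
        (Homeomorph.funUnique (Fin 1) ℂ).symm.isEmbedding
      exact (h1.comp e.isEmbedding).comp IsEmbedding.subtypeVal
    · ext z
      constructor
      · rintro _
        exact ⟨mem_univ _, fun i => i.elim0⟩
      · intro _
        refine ⟨e.symm (z 0), mem_univ _, ?_⟩
        ext i
        rw [Subsingleton.elim i 0]
        simp
    · intro f u _
      constructor
      · intro h
        refine ⟨fun x => f (e.symm (x 0)), ?_, Eventually.of_forall fun v => by simp⟩
        have h2 : AnalyticAt ℂ (fun x : Fin 1 → ℂ => x 0) (fun _ => e u) :=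
          (ContinuousLinearMap.proj (R := ℂ) (φ := fun _ : Fin 1 => ℂ) 0).analyticAt _
        exact AnalyticAt.comp (g := fun z => f (e.symm z)) (f := fun x : Fin 1 → ℂ => x 0)
          (x := fun _ => e u) h h2
      · rintro ⟨F, hF, hF'⟩
        have h2 : AnalyticAt ℂ (fun z : ℂ => (fun _ => z : Fin 1 → ℂ)) (e u) := by
          exact (ContinuousLinearMap.pi (fun _ : Fin 1 => ContinuousLinearMap.id ℂ ℂ)).analyticAt _
        have h3 : AnalyticAt ℂ (fun z : ℂ => F (fun _ => z)) (e u) :=
          AnalyticAt.comp (g := F) (f := fun z : ℂ => (fun _ => z : Fin 1 → ℂ)) (x := e u) hF h2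
        refine h3.congr ?_
        have h4 : Tendsto e.symm (𝓝 (e u)) (𝓝 u) := by
          have := e.symm.continuous.tendsto (e u)
          rwa [e.symm_apply_apply] at this
        filter_upwards [h4.eventually hF'] with z hz
        rw [hz, e.apply_symm_apply]

theorem mem_hol_planeStructure {Y : Type*} [TopologicalSpace Y] (e : Y ≃ₜ ℂ) (f : C(Y, ℂ)) :
    f ∈ (planeStructure e).hol ↔ Differentiable ℂ fun z => f (e.symm z) := by
  constructor
  · intro h z
    have := h (e.symm z)
    change AnalyticAt ℂ (fun z => f (e.symm z)) (e (e.symm z)) at this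
    rw [e.apply_symm_apply] at this
    exact this.differentiableAt
  · intro h y
    exact h.analyticAt (e y)

theorem isStein_planeStructure {Y : Type*} [TopologicalSpace Y] (e : Y ≃ₜ ℂ) :
    (planeStructure e).IsStein where
  t2 := e.isEmbedding.t2Space
  secondCountable := e.isEmbedding.secondCountableTopology
  separable x y hxy := by
    refine ⟨⟨e, e.continuous⟩, ?_, fun h => hxy (e.injective h)⟩
    rw [mem_hol_planeStructure]
    simp only [ContinuousMap.coe_mk, e.apply_symm_apply]
    exact differentiable_id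
  convex K hK := by
    rcases K.eq_empty_or_nonempty with rfl | hne
    · convert! isCompact_empty (X := Y)
      rw [eq_empty_iff_forall_notMem]
      intro y hy
      obtain ⟨x, hx, -⟩ := hy 0 (by
        rw [mem_hol_planeStructure]
        exact differentiable_const 0)
      exact hx
    · have hcl : IsClosed {y : Y | ∀ f ∈ (planeStructure e).hol, ∃ x ∈ K, ‖f y‖ ≤ ‖f x‖} := by
        simp only [Set.ofPred_forall]
        refine isClosed_iInter fun f => isClosed_iInter fun _ => ?_
        obtain ⟨x0, hx0, hmax⟩ := hK.exists_isMaxOn hne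
          (f := fun y => ‖f y‖) f.continuous.norm.continuousOn
        have : {y | ∃ x ∈ K, ‖f y‖ ≤ ‖f x‖} = {y | ‖f y‖ ≤ ‖f x0‖} := by
          ext y
          constructor
          · rintro ⟨x, hx, hxy⟩
            exact hxy.trans (hmax hx)
          · intro h
            exact ⟨x0, hx0, h⟩
        rw [this]
        exact isClosed_le f.continuous.norm continuous_const
      obtain ⟨R, hR⟩ := (hK.image e.continuous).isBounded.subset_closedBall 0
      have hc : IsCompact (e ⁻¹' Metric.closedBall (0 : ℂ) R) :=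
        e.isCompact_preimage.2 (ProperSpace.isCompact_closedBall _ _)
      refine hc.of_isClosed_subset hcl fun y hy => ?_
      obtain ⟨x, hx, hxy⟩ := hy ⟨e, e.continuous⟩ (by
        rw [mem_hol_planeStructure]
        simp only [ContinuousMap.coe_mk, e.apply_symm_apply]
        exact differentiable_id)
      have h1 := hR ⟨x, hx, rfl⟩
      rw [mem_closedBall_zero_iff] at h1
      rw [mem_preimage, mem_closedBall_zero_iff]
      exact hxy.trans h1

theorem isSteinAlgebra_Entire : IsSteinAlgebra Entire := by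
  refine ⟨ℂ, inferInstance, planeStructure (Homeomorph.refl ℂ),
    isStein_planeStructure _, Entire.incl, Entire.isUniformEmbedding_incl.isEmbedding, ?_⟩
  ext f
  rw [mem_hol_planeStructure]
  constructor
  · rintro ⟨g, rfl⟩
    exact differentiable_coe g
  · intro h
    exact ⟨(⟨f, h⟩ : holC), rfl⟩

/-- evaluation at a point, as a character of the algebra of entire functions -/
noncomputable def evE (z : ℂ) : characterSpace ℂ Entire :=
  ⟨({ toFun := fun f => f.1 z
      map_add' := fun _ _ => rfl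
      map_smul' := fun _ _ => rfl
      cont := continuous_eval_Entire z } : Entire →L[ℂ] ℂ), by
    refine ⟨fun h => ?_, fun _ _ => rfl⟩
    have : (1 : ℂ) = 0 := DFunLike.congr_fun h (1 : Entire)
    exact one_ne_zero this⟩

theorem evE_apply (z : ℂ) (f : Entire) : evE z f = f.1 z := rfl

theorem continuous_evE : Continuous evE := by
  refine Continuous.subtype_mk ?_ _
  refine WeakDual.continuous_of_continuous_eval fun f => ?_
  exact f.1.continuous

/-- the coordinate function -/
def coordE : Entire := (⟨⟨id, continuous_id⟩, differentiable_id⟩ : holC)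

theorem evE_coord (φ : characterSpace ℂ Entire) : evE (φ coordE) = φ := by
  ext f
  rw [evE_apply]
  set x : ℂ := φ coordE with hx
  set F : Entire := f - (f.1 x) • (1 : Entire) with hF
  have hFx : F.1 x = 0 := by
    change f.1 x - f.1 x * 1 = 0
    rw [mul_one, sub_self]
  obtain ⟨h1, h2⟩ := dslope_spec (f := fun z => F.1 z) (differentiable_coe F) x hFx
  set G : Entire := (⟨⟨dslope (fun z => F.1 z) x, h1.continuous⟩, h1⟩ : holC) with hG
  have h3 : F = (coordE - x • (1 : Entire)) * G := by
    refine Subtype.ext (ContinuousMap.ext fun z => ?_)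
    change F.1 z = (z - x * 1) * dslope (fun z => F.1 z) x z
    rw [mul_one]
    exact h2 z
  have h4 : φ F = 0 := by
    rw [h3, map_mul, map_sub, map_smul, map_one, smul_eq_mul, mul_one, ← hx, sub_self, zero_mul]
  rw [hF, map_sub, map_smul, map_one, smul_eq_mul, mul_one, sub_eq_zero] at h4
  exact h4.symm

/-- the spectrum of the algebra of entire functions is the plane -/
noncomputable def homeoE : characterSpace ℂ Entire ≃ₜ ℂ where
  toFun φ := φ coordE
  invFun := evE
  left_inv := evE_coord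
  right_inv _ := rfl
  continuous_toFun := (gelfandTransform ℂ Entire coordE).continuous
  continuous_invFun := continuous_evE

theorem isLocallyStein_Entire : IsLocallyStein Entire := by
  let h0 : Spec Entire ≃ₜ ℂ := homeoE
  let e : (univ : Set (Spec Entire)) ≃ₜ ℂ := (Homeomorph.Set.univ _).trans h0
  have hg : ∀ (x : Entire) (z : ℂ), gelfand x (e.symm z : Spec Entire) = x.1 z := fun x z => rfl
  refine ⟨univ, isOpen_univ, ⟨evE 0, mem_univ _⟩, planeStructure e, isStein_planeStructure e,
    ?_, ?_⟩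
  · intro x y
    exact (differentiable_coe x).analyticAt (e y)
  · have hcl : IsClosed (planeStructure e).hol := by
      have h1 : (planeStructure e).hol =
          (fun f => f.comp ⟨e.symm, e.symm.continuous⟩) ⁻¹' (holC : Set C(ℂ, ℂ)) := by
        ext f
        exact mem_hol_planeStructure e f
      rw [h1]
      exact isClosed_holC.preimage (ContinuousMap.continuous_precomp _)
    have hr : {f : C((univ : Set (Spec Entire)), ℂ) | ∃ x : Entire, ∀ y, f y = gelfand x y} =
        (planeStructure e).hol := by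
      ext f
      rw [mem_hol_planeStructure]
      constructor
      · rintro ⟨x, hx⟩
        have h2 : (fun z => f (e.symm z)) = fun z => x.1 z := by
          ext z
          rw [hx, hg]
        rw [h2]
        exact differentiable_coe x
      · intro hf
        set g : Entire := (⟨⟨fun z => f (e.symm z), hf.continuous⟩, hf⟩ : holC) with hgdef
        refine ⟨g, fun y => ?_⟩
        have h5 : gelfand g (e.symm (e y) : Spec Entire) = f (e.symm (e y)) := rfl
        rw [e.symm_apply_apply] at h5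
        exact h5.symm
    rw [hr, hcl.closure_eq]

end Pool.Agent.W_MP_591444_an
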